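import Mathlib

/-!
# Definitions for the hand-in SimpleFactors (MP_d45cc7)

`L` is a (simple) group and `p` a prime.
-/

set_option autoImplicit false

namespace Pool.NEUS

open Subgroup

universe u

/-- `L` is isomorphic to an alternating group of degree at least `5`. -/
def IsAlt (L : Type u) [Group L] : Prop :=
  ∃ n : ℕ, 5 ≤ n ∧ Nonempty (L ≃* alternatingGroup (Fin n))

/-- `L` is isomorphic to `PSL(2, F)`. -/
def IsPSL (L : Type u) [Group L] (F : Type) [Field F] : Prop :=
  Nonempty (L ≃* Matrix.ProjectiveSpecialLinearGroup (Fin 2) F)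

/-- `L` is isomorphic to `PSL(2, F)` for a finite field `F`. -/
def IsPSL2 (L : Type u) [Group L] : Prop :=
  ∃ (F : Type) (_ : Field F), Finite F ∧ IsPSL L F

/-- `|Out(L)|_p * |Z(S)| ≤ |S|` for the Sylow `p`-subgroups `S` of `L` (`|Out(L)|` is the index of
the group of inner automorphisms, `|·|_p` the `p`-part). -/
def OutBound (p : ℕ) (L : Type u) [Group L] : Prop :=
  ∀ S : Sylow p L, p ^ ((MulAut.conj : L →* MulAut L).range.index.factorization p) *
    Nat.card (center S) ≤ Nat.card S

/-- Every `p`-group `X` of automorphisms of `L` which fixes a Sylow `p`-subgroup `S` of `L`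
pointwise satisfies `|X| ≤ |S|`. -/
def AutBound (p : ℕ) (L : Type u) [Group L] : Prop :=
  ∀ (S : Sylow p L) (X : Subgroup (MulAut L)), IsPGroup p X →
    (∀ α ∈ X, ∀ x ∈ S, α x = x) → Nat.card X ≤ Nat.card S

/-- One of the four conditions. -/
def Good (p : ℕ) (L : Type u) [Group L] : Prop :=
  IsAlt L ∨ IsPSL2 L ∨ OutBound p L ∨ AutBound p L

/-- `L` is a nonabelian simple group of order divisible by `p`. -/
def NonabelianSimple (p : ℕ) (L : Type u) [Group L] : Prop :=
  IsSimpleGroup L ∧ (∃ a b : L, a * b ≠ b * a) ∧ p ∣ Nat.card L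

/-- Every nonabelian simple group `H / Z(H)` of order divisible by `p`, `H` a subnormal subgroup of
`Q`, satisfies one of the four conditions. -/
def FactorsGood (p : ℕ) (Q : Type u) [Group Q] : Prop :=
  ∀ H : Subgroup Q, H.IsSubnormal → NonabelianSimple p (H ⧸ center H) → Good p (H ⧸ center H)

/-- `N` is the greatest normal subgroup of `G` of order prime to `p`. -/
def IsCore (p : ℕ) (G : Type u) [Group G] (N : Subgroup G) : Prop :=
  N.Normal ∧ ¬ p ∣ Nat.card N ∧ ∀ M : Subgroup G, M.Normal → ¬ p ∣ Nat.card M → M ≤ N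

end Pool.NEUS
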