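import Pool.Agent.H55.NEU.Main
import Pool.Agent.H55.NEU.Alt
import Pool.Agent.H55.NEU.Psl5
import Pool.Agent.H55.NEUS.Defs

set_option autoImplicit false

namespace Pool.NEUS

open Subgroup Pool.Agent.H55.NEU

universe u

theorem main (G : Type u) [Group G] [Finite G] (m : ℕ) (hm : m ∣ Nat.card (MulAut G))
    (hyp : ∀ p : ℕ, p.Prime → p ∣ m → p ∣ Nat.card G →
      ∀ (N : Subgroup G) [N.Normal], IsCore p G N → FactorsGood p (G ⧸ N))
    (P : ∀ p ∈ (Nat.card G).primeFactors, Sylow p G) :
    m ∣ Nat.card (G ⧸ center G) *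
        ∏ p : (Nat.card G).primeFactors,
          Nat.card (MulAut (↥(P p.1 p.2 : Subgroup G))) := by
  apply Pool.Agent.H55.NEU.main G m hm P
  intro p hp hpG hpm N hN hNp hNmax H hH K hK hKc hs hab hd
  have hpf : Fact p.Prime := ⟨hp⟩
  -- `K` is the center of `H`
  have hKe : K = center H := by
    apply le_antisymm hKc
    have h1 := center_eq_bot_of_simple (L := H ⧸ K) hab
    intro x hx
    have h2 : (QuotientGroup.mk x : H ⧸ K) ∈ center (H ⧸ K) := by
      apply mem_center_iff.2
      intro y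
      obtain ⟨y, rfl⟩ := QuotientGroup.mk_surjective y
      rw [← QuotientGroup.mk_mul, ← QuotientGroup.mk_mul, mem_center_iff.1 hx y]
    rw [h1, mem_bot] at h2
    exact (QuotientGroup.eq_one_iff x).1 h2
  subst hKe
  rcases hyp p hp hpm hpG N ⟨hN, hNp, hNmax⟩ H hH ⟨hs, hab, hd⟩ with ⟨n, h5, ⟨e⟩⟩ |
    ⟨F, hF, hFf, ⟨e⟩⟩ | h | h
  · have hab' : ∃ a b : alternatingGroup (Fin n), a * b ≠ b * a := by
      obtain ⟨a, b, hne⟩ := hab
      refine ⟨e a, e b, fun hh => hne ?_⟩
      rw [← map_mul, ← map_mul] at hh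
      exact e.injective hh
    exact (centBound_alt h5 hab').congr e.symm
  · have hab' : ∃ a b : PS F, a * b ≠ b * a := by
      obtain ⟨a, b, hne⟩ := hab
      refine ⟨e a, e b, fun hh => hne ?_⟩
      rw [← map_mul, ← map_mul] at hh
      exact e.injective hh
    have hs' : IsSimpleGroup (PS F) := e.symm.isSimpleGroup
    have hd' : p ∣ Nat.card (PS F) := by rwa [← Nat.card_congr e.toEquiv]
    exact (centBound_psl (center_eq_bot_of_simple hab') hd').congr e.symm
  · exact centBound_of_out (center_eq_bot_of_simple hab) h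
  · exact h

end Pool.NEUS
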